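import Pool.Agent.R11.WRat2

/-!
# Connected graphs of every diameter with only rational Wiener roots

For `K ≥ 2` let `q = K² 2^(K+1)` and `n = 4 (q + 1)^(K-1)`.  There is a connected graph with `n`
vertices and diameter `K + 1` whose Wiener polynomial is `x (x + q)^(K-1) (x + 2n - 3)`: attach to a
clique chains of `1, …, K` vertices, join the vertices of equal depth of different chains, and
choose suitably how many vertices of the clique are joined to the first vertex of each chain.
-/

set_option autoImplicit false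

namespace Pool.Agent.Results.MP_96b1db_co.RationalRoots

open Polynomial

open Classical in
/-- The Wiener polynomial: the sum of `x ^ d(u, v)` over the unordered pairs of different vertices,
written as half the sum over the ordered pairs. -/
noncomputable def wienerPoly {V : Type*} [Fintype V] (G : SimpleGraph V) : ℚ[X] :=
  C (1 / 2) * ∑ u : V, ∑ v : V, if u = v then 0 else X ^ G.dist u v

open Pool.Agent.R11.WRat in
theorem aux (K : ℕ) (hK : 2 ≤ K) : ∃ (V : Type) (_ : Fintype V) (G : SimpleGraph V),
    G.Connected ∧ (∀ u v, G.dist u v ≤ K + 1) ∧ (∃ u v, G.dist u v = K + 1) ∧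
      ∃ q n : ℕ, Fintype.card V = n ∧ 3 ≤ 2 * n ∧
      wienerPoly G = X * ((X + C (q : ℚ)) ^ (K - 1) * (X + C (2 * (n : ℚ) - 3))) := by
  obtain ⟨a, ha, ham, hP⟩ := exists_a K hK
  have hd := dist_gr (m := mm K) (L := Len K) (a := a) ha ham
  have hm := mm_add K hK
  have hN := NN_large K hK
  have hpos : 0 < mm K := by
    have h := hm.2
    have : 0 < (qq K + 1) ^ (K - 1) := by positivity
    omega
  refine ⟨_, inferInstance, gr (mm K) (Len K) a, ?_, ?_, ?_, qq K, NN K, ?_, by omega, ?_⟩
  · have : Nonempty (V (mm K) (Len K)) := ⟨.inl ⟨0, hpos⟩⟩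
    exact ⟨hd.1⟩
  · intro u v
    rw [hd.2]
    exact D_le K a u v
  · obtain ⟨x, y, h⟩ := exists_far K hK a hP
    exact ⟨x, y, by rw [hd.2, h]⟩
  · rw [← hm.1]
    simp [Fintype.card_sum, Fintype.card_sigma]
  · have h1 : (P2 (mm K) (Len K) a).map (Int.castRingHom ℚ) =
        ∑ u : V (mm K) (Len K), ∑ v : V (mm K) (Len K),
          if u = v then 0 else X ^ D a u v := by
      unfold P2
      rw [Polynomial.map_sum]
      refine Finset.sum_congr rfl fun x _ => ?_
      rw [Polynomial.map_sum]
      refine Finset.sum_congr rfl fun y _ => ?_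
      split_ifs <;> simp
    have h2 : wienerPoly (gr (mm K) (Len K) a) =
        C (1 / 2) * (P2 (mm K) (Len K) a).map (Int.castRingHom ℚ) := by
      rw [h1]
      unfold wienerPoly
      congr 1
      refine Finset.sum_congr rfl fun x _ => Finset.sum_congr rfl fun y _ => ?_
      rw [hd.2]
      congr!
    rw [h2, hP]
    have h3 : ((2 * NN K - 3 : ℕ) : ℤ) = 2 * (NN K : ℤ) - 3 := by omega
    have h4 : (TT K).map (Int.castRingHom ℚ) =
        X * ((X + C (qq K : ℚ)) ^ (K - 1) * (X + C (2 * (NN K : ℚ) - 3))) := by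
      unfold TT
      rw [h3]
      simp only [Polynomial.map_mul, Polynomial.map_pow, Polynomial.map_add, Polynomial.map_X,
        Polynomial.map_C]
      simp
    rw [← h4]
    have h5 : Polynomial.map (Int.castRingHom ℚ) 2 = C 2 := by
      rw [show (2 : ℤ[X]) = C 2 by rfl, Polynomial.map_C]
      simp
    rw [Polynomial.map_mul, h5, ← mul_assoc, ← C_mul]
    norm_num

/-- For every `D ≥ 3` there is a finite connected graph of diameter exactly `D` all of whose
Wiener roots are rational. -/
theorem result (D : ℕ) (hD : 3 ≤ D) : ∃ (V : Type) (_ : Fintype V) (G : SimpleGraph V),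
    G.Connected ∧ (∀ u v, G.dist u v ≤ D) ∧ (∃ u v, G.dist u v = D) ∧ wienerPoly G ≠ 0 ∧
      ∀ z : ℂ, aeval z (wienerPoly G) = 0 → ∃ r : ℚ, z = (r : ℂ) := by
  obtain ⟨V, hV, G, hc, h1, h2, q, n, _, _, hW⟩ := aux (D - 1) (by omega)
  have hD' : D - 1 + 1 = D := by omega
  rw [hD'] at h1 h2
  refine ⟨V, hV, G, hc, h1, h2, ?_, ?_⟩
  · rw [hW]
    refine mul_ne_zero X_ne_zero (mul_ne_zero (pow_ne_zero _ ?_) ?_)
    · exact (monic_X_add_C _).ne_zero
    · exact (monic_X_add_C _).ne_zero
  · intro z hz
    rw [hW] at hz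
    simp only [map_mul, map_pow, map_add, aeval_X, aeval_C, mul_eq_zero] at hz
    rcases hz with hz | hz | hz
    · exact ⟨0, by rw [hz]; simp⟩
    · have h := (pow_eq_zero_iff (n := D - 1 - 1) (by omega)).1 hz
      refine ⟨-(q : ℚ), ?_⟩
      rw [eq_neg_of_add_eq_zero_left h]
      simp
    · refine ⟨-(2 * (n : ℚ) - 3), ?_⟩
      rw [eq_neg_of_add_eq_zero_left hz]
      simp

end Pool.Agent.Results.MP_96b1db_co.RationalRoots
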